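import Mathlib
import Pool.Agent.R594.Sel.Main

set_option autoImplicit false

/-!
# MP_f865b7_gt, Q1: no Frechet `C`-selective space fails to be strongly `C`-selective

See `Pool.Agent.R594.Sel.Defs` for the definitions `LSC`, `Selective`, `StronglySelective`,
`CSelective` and `StronglyCSelective`, which are the ones of the problem.

The proof: every countable subspace of a `C`-selective space is first countable
(`Pool.Agent.R594.Sel.firstCountable_of_countable`); a closing-off argument reduces a lower
semicontinuous map with values in a countably tight `C`-selective space to one with values in a
countable subspace (`Pool.Agent.R594.Sel.strongly_of_tight`), and Michael's theorem applies there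
(`Pool.Agent.R594.Sel.michael`).
-/

universe u

namespace Pool.Agent.Results.MP_f865b7_gt.FrechetStrong

open Pool.Agent.R594.Sel

/-- Every Frechet `C`-selective (`T₁`) space is strongly `C`-selective. -/
theorem result (X : Type u) [TopologicalSpace X] [T1Space X] [FrechetUrysohnSpace X]
    (hX : CSelective X) : StronglyCSelective X :=
  strongly_of_tight (countablyTight_of_frechet X) hX

end Pool.Agent.Results.MP_f865b7_gt.FrechetStrong
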